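import Pool.Agent.Lib_helper92.OCN.YcJR

/-!
# MP_aeb124_co: number game, the money which is refused goes to the survivors
-/

set_option autoImplicit false

namespace Pool.Agent.OCN.YC

/-- R13: `k` units are paid to the survivors -/
theorem ref_surv {f : ℕ} (k : ℕ) : ∀ {v : Vd} {β : Multiset ℕ} (_ : Rp f v β) (_ : v.md = true)
    (_ : v.X = 0) (_ : v.p ≤ v.n) (_ : v.p = 0 ∨ v.d + 1 ≤ v.c) (_ : v.d ≤ v.c) (_ : 1 ≤ v.n)
    (_ : f ≤ v.d + v.m) (_ : k ≤ v.n * v.d + v.p)
    (_ : k + v.n * f ≤ v.n * (v.d + v.m) + v.p),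
    ∃ d' p' β' k', Lw β β' k' ∧ k' ≤ k ∧ v.n * d' + p' + k = v.n * v.d + v.p ∧ d' ≤ v.d ∧
      p' ≤ v.n ∧ (p' = 0 ∨ d' + 1 ≤ v.c) ∧ f ≤ d' + v.m ∧ (d' = v.d → p' ≤ v.p) ∧
      Rp f { v with d := d', p := p', X := 0 } β' := by
  induction k with
  | zero =>
    intro v β h hmd hX hpn hpc hdc hn hfd hk hk2
    refine ⟨v.d, v.p, β, 0, Lw.refl β, le_rfl, rfl, le_rfl, hpn, hpc, hfd, fun _ => le_rfl, ?_⟩
    rw [← hX]
    exact h
  | succ k ih =>
    intro v β h hmd hX hpn hpc hdc hn hfd hk hk2
    by_cases hp : 1 ≤ v.p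
    · obtain ⟨β₁, k₁, h1, h2, h3⟩ := rp_p h hmd hX 1 hp
      obtain ⟨d', p', β', k', g1, g2, g3, g4, g5, g6, g7, g8, g9⟩ :=
        ih h3 hmd hX (show v.p - 1 ≤ v.n by omega)
          (show v.p - 1 = 0 ∨ v.d + 1 ≤ v.c by omega) hdc hn hfd
          (show k ≤ v.n * v.d + (v.p - 1) by omega)
          (show k + v.n * f ≤ v.n * (v.d + v.m) + (v.p - 1) by omega)
      refine ⟨d', p', β', k₁ + k', h1.trans g1, by omega, ?_, g4, g5, g6, g7, ?_, g9⟩
      · have g3' : v.n * d' + p' + k = v.n * v.d + (v.p - 1) := g3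
        omega
      · intro h4
        have g8' : p' ≤ v.p - 1 := g8 h4
        omega
    · have hp0 : v.p = 0 := by omega
      rw [hp0, add_zero] at hk hk2
      have hd : 1 ≤ v.d := by
        by_contra hcon
        have : v.d = 0 := by omega
        rw [this, mul_zero] at hk
        omega
      have hfd2 : f ≤ v.d - 1 + v.m := by
        by_contra hcon
        have h4 : v.d + v.m = f := by omega
        rw [h4] at hk2
        omega
      have h3 := rp_base h hmd hp0 hd
      obtain ⟨β₁, k₁, h1, h2, h5⟩ := rp_p h3 hmd rfl 1 (show 1 ≤ v.n from hn)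
      have e1 : v.n * (v.d - 1) + v.n = v.n * v.d := by
        obtain ⟨e, he⟩ : ∃ e, v.d = e + 1 := ⟨v.d - 1, by omega⟩
        rw [he, Nat.add_sub_cancel]
        ring
      have e2 : v.n * (v.d - 1 + v.m) + v.n = v.n * (v.d + v.m) := by
        obtain ⟨e, he⟩ : ∃ e, v.d = e + 1 := ⟨v.d - 1, by omega⟩
        rw [he, Nat.add_sub_cancel]
        ring
      obtain ⟨d', p', β', k', g1, g2, g3, g4, g5, g6, g7, g8, g9⟩ :=
        ih h5 hmd rfl (show v.n - 1 ≤ v.n by omega)
          (show v.n - 1 = 0 ∨ v.d - 1 + 1 ≤ v.c by omega) (show v.d - 1 ≤ v.c by omega) hn hfd2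
          (show k ≤ v.n * (v.d - 1) + (v.n - 1) by omega)
          (show k + v.n * f ≤ v.n * (v.d - 1 + v.m) + (v.n - 1) by omega)
      have g3' : v.n * d' + p' + k = v.n * (v.d - 1) + (v.n - 1) := g3
      have g4' : d' ≤ v.d - 1 := g4
      refine ⟨d', p', β', k₁ + k', h1.trans g1, by omega, by omega, by omega, g5, g6, g7, ?_, g9⟩
      intro h6
      omega

/-- the money which is refused: `I` units go to the survivors. `ρ ≥ I` was the need -/
theorem ref {P : Par} {o u μ : ℕ} {β : Multiset ℕ} {v : Vd} (h : Sn P o u μ β v) (hX : v.X = 0)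
    (I : ℕ) :
    ∃ (v' : Vd) (β' : Multiset ℕ) (k' : ℕ), Lw β β' k' ∧ k' ≤ I ∧ Sn P o u μ β' v' ∧
      v'.E = v.E ∧ v'.m = v.m ∧ v'.w = v.w ∧ v'.c = v.c ∧ v'.z = v.z ∧ v'.n = v.n ∧ v'.X = 0 ∧
      (v'.md = true → v.md = true ∧ (v.d < P.f ∨ v.p = 0 → v'.d < P.f ∨ v'.p = 0)) ∧
      (∀ ra : ℕ, Psi P o ra v' = Psi P o ra v) ∧ (∀ ra : ℕ, Pee P o ra v' = Pee P o ra v) ∧
      ∀ (ra : ℕ) (T need ρ : ℤ), (I : ℤ) ≤ ρ → 0 ≤ need →
        (v.md = true → T + nd v (need + ρ) ≤ Vee P o ra v + 8 * I) →
        v'.md = true → T + nd v' need ≤ Vee P o ra v' := by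
  by_cases hmd : v.md = true
  · obtain ⟨a1, a2, a3, a4, a5⟩ := h.hA hmd
    have hn1 : 1 ≤ v.n := by
      have := h.hn
      omega
    have hA0 : v.n * P.f ≤ v.n * (v.d + v.m) := Nat.mul_le_mul_left _ a3
    -- the amount
    obtain ⟨k, hk⟩ : ∃ k, k = min I (min (v.n * v.d + v.p)
        (v.n * (v.d + v.m) + v.p - v.n * P.f)) := ⟨_, rfl⟩
    obtain ⟨d', p', β', k', g1, g2, g3, g4, g5, g6, g7, g8, g9⟩ :=
      ref_surv k h.hR hmd hX a4 a5 a1 hn1 a3 (by omega) (by omega)
    have hkI : k ≤ I := by omega
    have hpot : ∀ b : Bool, Sn P o u μ β' { v with d := d', p := p', X := 0 } := by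
      intro _
      exact
        { hf := h.hf
          hnl := h.hnl
          hm := h.hm
          hμ := h.hμ
          hw := h.hw
          hz := h.hz
          hz0 := h.hz0
          hA := fun _ => ⟨show d' ≤ v.c by omega, show d' ≤ P.f by omega, g7, g5, g6⟩
          hH := h.hH
          hn := h.hn
          hN := h.hN
          ho := h.ho
          hE := h.hE
          hW := by
            have := g1.card
            have := h.hW
            omega
          hR := g9 }
    have hsn := hpot true
    have hPsi : ∀ ra : ℕ, Psi P o ra { v with d := d', p := p', X := 0 } = Psi P o ra v := by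
      intro ra
      unfold Psi
      rw [hX]
    have hPee : ∀ ra : ℕ, Pee P o ra { v with d := d', p := p', X := 0 } = Pee P o ra v := by
      intro ra
      unfold Pee
      rw [hX]
    have g3z : (v.n : ℤ) * d' + p' + k = v.n * v.d + v.p := by exact_mod_cast g3
    have hVee : ∀ ra : ℕ, Vee P o ra { v with d := d', p := p', X := 0 } =
        Vee P o ra v + 8 * k := by
      intro ra
      unfold Vee pA
      rw [hX]
      have e1 : (v.n : ℤ) * (d' + v.m - P.f) + p' + k = v.n * (v.d + v.m - P.f) + v.p := by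
        linarith
      show pQ _ _ _ - pS _ _ _ _ _ - 8 * ((v.n : ℤ) * ((d' : ℤ) + v.m - P.f) + p') = _
      linarith
    by_cases hfin : d' + v.m = P.f ∧ p' = 0
    · -- mode H
      have hsn2 : Sn P o u μ β' { v with d := d', p := p', X := 0, md := false } :=
        { hf := h.hf
          hnl := h.hnl
          hm := h.hm
          hμ := h.hμ
          hw := h.hw
          hz := h.hz
          hz0 := h.hz0
          hA := fun h1 => absurd h1 (by simp)
          hH := fun _ => by show v.m ≤ P.f; omega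
          hn := h.hn
          hN := h.hN
          ho := h.ho
          hE := h.hE
          hW := hsn.hW
          hR := rp_AH g9 hmd hfin.2 hfin.1 }
      refine ⟨_, β', k', g1, by omega, hsn2, rfl, rfl, rfl, rfl, rfl, rfl, rfl,
        fun h1 => absurd h1 (by simp), hPsi, hPee, fun ra T need ρ _ _ _ h1 => absurd h1 (by simp)⟩
    · refine ⟨_, β', k', g1, by omega, hsn, rfl, rfl, rfl, rfl, rfl, rfl, rfl,
        fun _ => ⟨hmd, fun h1 => ?_⟩, hPsi, hPee, fun ra T need ρ hρ hneed hT _ => ?_⟩
      · show d' < P.f ∨ p' = 0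
        rcases h1 with h1 | h1
        · left
          omega
        · by_cases h2 : d' = v.d
          · right
            have := g8 h2
            omega
          · left
            omega
      · rw [hVee]
        have hT' := hT hmd
        unfold nd at hT' ⊢
        show T + 8 * max 0 (need - ((v.n : ℤ) * d' + p')) ≤ _
        have hΓ : (0 : ℤ) ≤ (v.n : ℤ) * d' + p' := by positivity
        rcases le_total I (min (v.n * v.d + v.p) (v.n * (v.d + v.m) + v.p - v.n * P.f)) with h1 | h1
        · have hkk : k = I := by rw [hk, min_eq_left h1]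
          have hkz : (k : ℤ) = I := by exact_mod_cast hkk
          rcases le_total (need - ((v.n : ℤ) * d' + p')) 0 with h2 | h2
          · rw [max_eq_left h2]
            have h3 := le_max_left 0 (need + ρ - ((v.n : ℤ) * v.d + v.p))
            linarith
          · rw [max_eq_right h2]
            have h3 := le_max_right 0 (need + ρ - ((v.n : ℤ) * v.d + v.p))
            linarith
        · rcases le_total (v.n * v.d + v.p) (v.n * (v.d + v.m) + v.p - v.n * P.f) with h2 | h2
          · -- the level 0 is reached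
            have hkk : k = v.n * v.d + v.p := by rw [hk, min_eq_right h1, min_eq_left h2]
            have hkz : (k : ℤ) = v.n * v.d + v.p := by exact_mod_cast hkk
            have h4 : (v.n : ℤ) * d' + p' = 0 := by linarith
            rw [h4, sub_zero, max_eq_right hneed]
            have h3 := le_max_right 0 (need + ρ - ((v.n : ℤ) * v.d + v.p))
            linarith
          · -- nothing is left: mode H
            exfalso
            have hkk : k = v.n * (v.d + v.m) + v.p - v.n * P.f := by
              rw [hk, min_eq_right h1, min_eq_right h2]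
            have h3 : v.n * (d' + v.m) + p' = v.n * P.f := by
              have e1 : v.n * (v.d + v.m) = v.n * v.d + v.n * v.m := by ring
              have e2 : v.n * (d' + v.m) = v.n * d' + v.n * v.m := by ring
              omega
            have h4 : v.n * P.f ≤ v.n * (d' + v.m) := Nat.mul_le_mul_left _ g7
            have h5 : p' = 0 := by omega
            rw [h5, add_zero] at h3
            have h6 : d' + v.m = P.f := Nat.eq_of_mul_eq_mul_left (by omega) h3
            exact hfin ⟨h6, h5⟩
  · have hmd' : v.md = false := by simpa using hmd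
    refine ⟨v, β, 0, Lw.refl β, Nat.zero_le _, h, rfl, rfl, rfl, rfl, rfl, rfl, hX,
      fun h1 => absurd h1 hmd, fun _ => rfl, fun _ => rfl, fun ra T need ρ _ _ _ h1 => absurd h1 hmd⟩

end Pool.Agent.OCN.YC
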