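import Pool.Agent.Lib_helper68.OCN.YcJ_L
import Pool.Agent.Lib_helper28.OCN.YcB1

/-!
# MP_aeb124_co: number game, the end of the closed payment: conversion or refusal
-/

set_option autoImplicit false

namespace Pool.Agent.OCN.YC

variable {P : Par}

theorem B_K50' (P : Par) : 50 ≤ P.K := by
  have h1 := P.hR
  have h2 := P.hK
  have h3 : P.R0 ≤ kap P.Q P.R0 := by
    unfold kap
    rw [add_assoc]
    exact Nat.le_add_right _ _
  omega

/-- no debts, `d < f` or nothing above: conversion or refusal -/
theorem C_end2 (N : ℕ) (hL : HL P N) {σ : St} {I : ℕ} {v : Vd} (h : JC P σ I v)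
    (hμ : σ.μ = 0) (hE : 1 ≤ v.E) (hN : v.E ≤ N + 1) (hw : v.w = 0) (hX : v.X = 0)
    (hc : v.c ≤ P.f + v.m) (hW : P.W = σ.u + v.E) (hA : v.md = true → v.d < P.f ∨ v.p = 0) :
    Good P σ I := by
  obtain ⟨o, a, r, u, μ, ν, cb, β⟩ := σ
  obtain ⟨sn, ha, hI, hy, hyi, hps, hpv, hpp⟩ := h
  simp only at sn ha hI hps hpv hpp hμ hW
  subst ha hμ
  have hal : al P.f v = 0 := by
    unfold al
    rw [if_pos hw]
  rw [hal, add_zero] at hps
  have hmE : v.m = v.E := by
    have := sn.hm
    omega
  have hz : v.z = 0 := by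
    rcases sn.hz0 with h1 | h1
    · exact h1
    · omega
  have hK0 : (0 : ℤ) ≤ P.K := Int.natCast_nonneg _
  have hc0 : (0 : ℤ) ≤ v.c := Int.natCast_nonneg _
  by_cases hcv : v.c + P.K + 21 ≤ I
  · -- conversion
    obtain ⟨j, γ, v', hβ, hj, sn', e1, e2, e3, e4, e5, e6, e7, e8, e9, e10⟩ :=
      st_conv sn hE hw hX hz hc hA hW
    have h1 : Pays ⟨o, 0, r, u, 0, ν, cb, β⟩
        ⟨o, o, 1, u + 1, 0, 1, j + 1, γ.map (· + 1)⟩ 0 := by
      rw [hβ]
      exact Pays.single (Pay.conv o r u ν cb j γ)
    have hJ : JL P ⟨o, o, 1, u + 1, 0, 1, j + 1, γ.map (· + 1)⟩ I v' ((v'.c : ℤ) + 2) :=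
      { sn := sn'
        r := rfl
        ν := rfl
        μ := rfl
        hI := hI
        cb1 := Nat.le_add_left _ _
        cb := by show j + 1 ≤ v'.c; omega
        cba := by
          show j + 1 ≤ o ∨ o ≤ I
          omega
        w := e2
        X := e5
        y := by omega
        ps := by
          show T4 P o + 8 * ((v'.c : ℤ) + 2) ≤ Psi P o o v' + 8 * I
          have h2 := le_max_left (8 * (v.c : ℤ) + 52) (16 * (v.c : ℤ) - 8 * v.m + 60)
          rw [e3]
          push_cast
          linarith
        pv := by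
          intro hmd
          rw [e6] at hmd
          show T4 P o + nd v' ((v'.c : ℤ) + P.K + 20 + ((v'.c : ℤ) + 2)) ≤ Vee P o o v' + 8 * I
          have h2 := hpv hmd
          rw [hal, add_zero] at h2
          have h3 := e9 hmd
          have h4 : nd v' ((v'.c : ℤ) + P.K + 20 + ((v'.c : ℤ) + 2)) ≤
              nd v ((v.c : ℤ) + P.K + 20) := by
            have h5 : ((v.n : ℤ) * v.d + v.p) + v.n ≤ (v'.n : ℤ) * v'.d + v'.p := by
              exact_mod_cast e7 hmd
            have h6 : v.c + 4 ≤ v.n := by
              have := sn.hn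
              omega
            have h7 : (v.c : ℤ) + 4 ≤ v.n := by exact_mod_cast h6
            unfold nd
            rw [e3]
            push_cast
            have h8 : max 0 ((v.c : ℤ) + 1 + P.K + 20 + (v.c + 1 + 2) -
                ((v'.n : ℤ) * v'.d + v'.p)) ≤
                max 0 ((v.c : ℤ) + P.K + 20 - ((v.n : ℤ) * v.d + v.p)) :=
              max_le_max le_rfl (by linarith)
            linarith
          linarith
        pp := by
          intro hE'
          show TP P o v' ≤ Pee P o o v' + 8 * I
          obtain ⟨b1, b2, b3, b4⟩ := barJ (e := 0) (ra := 0) sn hI (by omega) (by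
            rw [hz, Nat.cast_zero, sub_zero]
            positivity) (by linarith)
          have h4 := B_K50' P
          have h5 : ((o : ℤ) : ℤ) ≤ 8 * ((P.K : ℤ) * o) := by
            have h6 : (50 : ℤ) * o ≤ P.K * o :=
              mul_le_mul_of_nonneg_right (by exact_mod_cast h4) (Int.natCast_nonneg _)
            linarith [Int.natCast_nonneg o]
          refine P_of_Psi (e := 0) e2 (by omega) (by omega) (by omega) (by omega) (by
            rw [e5]
            push_cast
            linarith) (by positivity) ?_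
          have h2 := le_max_left (8 * (v.c : ℤ) + 52) (16 * (v.c : ℤ) - 8 * v.m + 60)
          linarith
        win := by
          left
          refine ⟨le_rfl, ?_⟩
          show o + v'.c + P.K + 20 ≤ o + I
          omega }
    obtain ⟨σ'', c, h2, h3, h4⟩ := hL _ I v' _ hJ (by omega)
    exact ⟨σ'', 0 + c, h1.trans h2, by omega, h4⟩
  · -- refusal
    rw [not_le] at hcv
    obtain ⟨v', β', k', g1, g2, g3, gE, gm, gw, gc, gz, gn, gX, gmd, gPs, _, gV⟩ := ref sn hX I
    have h1 := (g1.pays o 0 r u 0 ν cb).trans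
      (Pays.single (Pay.nrm o r u 0 ν cb ν cb β'))
    refine ⟨⟨o, 0, 0, u, 0, ν, cb, β'⟩, k' + 0, h1, by omega, Or.inl (Or.inr (Or.inl ⟨v', ?_⟩))⟩
    have hIc : (I : ℤ) ≤ v.c + P.K + 20 := by
      have : I ≤ v.c + P.K + 20 := by omega
      exact_mod_cast this
    exact
      { ws :=
          { sn := g3
            a := rfl
            μ := rfl
            E := by omega
            w := by omega
            z := by omega
            X := gX
            c := by omega
            A := fun hmd => by
              obtain ⟨g5, g6⟩ := gmd hmd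
              exact g6 (hA g5) }
        r := rfl
        ps := by
          show T4 P o ≤ Psi P o 0 v' + 8 * ((v'.c : ℤ) + P.K + 20)
          rw [gPs, gc]
          linarith
        pv := by
          intro hmd
          show T4 P o ≤ Vee P o 0 v'
          have h5 := gV 0 (T4 P o) 0 ((v.c : ℤ) + P.K + 20) hIc le_rfl (fun hmd' => by
            have h6 := hpv hmd'
            rw [hal, add_zero] at h6
            rw [zero_add]
            exact h6) hmd
          have h6 := L_nd0 v' 0
          linarith }

/-- the end of the closed payment: `p` at `d = f`, conversion or refusal -/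
theorem C_end (N : ℕ) (hL : HL P N) {σ : St} {I : ℕ} {v : Vd} (h : JC P σ I v)
    (hμ : σ.μ = 0) (hE : 1 ≤ v.E) (hN : v.E ≤ N + 1) (hw : v.w = 0) (hX : v.X = 0)
    (hc : v.c ≤ P.f + v.m) (hW : P.W = σ.u + v.E) : Good P σ I := by
  by_cases hA : v.md = true → v.d < P.f ∨ v.p = 0
  · exact C_end2 N hL h hμ hE hN hw hX hc hW hA
  have hmd : v.md = true := by
    by_contra hmd
    exact hA fun h1 => absurd h1 hmd
  have hdf : v.d = P.f ∧ 1 ≤ v.p := by
    obtain ⟨a1, a2, a3, a4, a5⟩ := h.sn.hA hmd
    by_contra hcon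
    exact hA fun _ => by omega
  obtain ⟨hd, hp⟩ := hdf
  obtain ⟨a1, a2, a3, a4, a5⟩ := h.sn.hA hmd
  have hf := h.sn.hf
  have hn := h.sn.hn
  have hm := h.sn.hm
  have hμE := h.sn.hμ
  have hal : al P.f v = 0 := by
    unfold al
    rw [if_pos hw]
  obtain ⟨k, hk⟩ : ∃ k, k = min I v.p := ⟨_, rfl⟩
  obtain ⟨β', k', g1, g2, g3⟩ := rp_p h.sn.hR hmd hX k (by omega)
  obtain ⟨o, a, r, u, μ, ν, cb, β⟩ := σ
  obtain ⟨sn, ha, hI, hy, hyi, hps, hpv, hpp⟩ := h
  simp only at sn ha hI hps hpv hpp hμ hW g1 g3 hm hμE
  subst ha hμ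
  -- the new data
  have sn' : Sn P o u 0 β' { v with p := v.p - k } :=
    { hf := sn.hf
      hnl := sn.hnl
      hm := sn.hm
      hμ := sn.hμ
      hw := sn.hw
      hz := sn.hz
      hz0 := sn.hz0
      hA := fun _ => ⟨a1, a2, a3, by show v.p - k ≤ v.n; omega, by
        show v.p - k = 0 ∨ v.d + 1 ≤ v.c
        omega⟩
      hH := sn.hH
      hn := sn.hn
      hN := sn.hN
      ho := sn.ho
      hE := sn.hE
      hW := by
        have := g1.card
        have := sn.hW
        omega
      hR := g3 }
  have hkp : ((v.p - k : ℕ) : ℤ) = v.p - k := by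
    rw [Nat.cast_sub (by omega)]
  have hPs : Psi P o 0 { v with p := v.p - k } = Psi P o 0 v := rfl
  have hVs : Vee P o 0 { v with p := v.p - k } = Vee P o 0 v + 8 * k := by
    unfold Vee pA
    show _ - 8 * ((v.n : ℤ) * ((v.d : ℤ) + v.m - P.f) + ((v.p - k : ℕ) : ℤ)) = _
    rw [hkp]
    ring
  have hnn : v.n ≤ v.n * v.d := Nat.le_mul_of_pos_right _ (by omega)
  have hnd : nd { v with p := v.p - k } ((v.c : ℤ) + P.K + 20) = 0 := by
    unfold nd
    show 8 * max 0 ((v.c : ℤ) + P.K + 20 - ((v.n : ℤ) * v.d + ((v.p - k : ℕ) : ℤ))) = 0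
    rw [max_eq_left, mul_zero]
    have h5 : v.c + P.K + 20 ≤ v.n * v.d + (v.p - k) := by omega
    have h6 : (v.c : ℤ) + P.K + 20 ≤ (v.n : ℤ) * v.d + ((v.p - k : ℕ) : ℤ) := by exact_mod_cast h5
    linarith
  have hnd0 := L_nd0 v ((v.c : ℤ) + P.K + 20)
  have hpv' := hpv hmd
  rw [hal, add_zero] at hpv' hps
  have hal' : al P.f { v with p := v.p - k } = 0 := hal
  have hkp' : (k : ℤ) ≤ v.p := by
    have : k ≤ v.p := by omega
    exact_mod_cast this
  have hkI' : (k : ℤ) ≤ I := by
    have : k ≤ I := by omega
    exact_mod_cast this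
  -- `V` implies `Ψ`
  have hcap : T4 P o ≤ Psi P o 0 v + 8 * ((I : ℤ) - k) := by
    have h5 := capJ sn
    have h6 : Vee P o 0 v = Psi P o 0 v + pH P.f v.m v.c - 8 * (v.n * (v.m : ℤ)) - 8 * v.p := by
      unfold Vee Psi pA
      rw [hd]
      ring
    have h7 : (0 : ℤ) ≤ (v.m : ℤ) ^ 2 := sq_nonneg _
    have h8 : (0 : ℤ) ≤ (16 * P.K + 336) * (v.m : ℤ) := by positivity
    linarith
  by_cases hpI : v.p ≤ I
  · -- everything above `f` is paid
    have hkk : k = v.p := by omega
    have h1 := g1.pays o 0 r u 0 ν cb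
    have hJ : JC P ⟨o, 0, r, u, 0, ν, cb, β'⟩ (I - k) { v with p := v.p - k } :=
      { sn := sn'
        a := rfl
        hI := by show I - k ≤ o + 1; omega
        y := hy
        yi := by
          have h5 : v.c - (P.f + v.m) = 0 := by omega
          show (v.c + 1) * (v.c - (P.f + v.m)) + v.X ≤ 12 * (v.c + 1) + (I - k)
          rw [h5, hX]
          omega
        ps := by
          rw [hal', add_zero]
          show T4 P o ≤ Psi P o 0 { v with p := v.p - k } + 8 * ((I - k : ℕ) : ℤ)
          rw [hPs, Nat.cast_sub (by omega)]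
          exact hcap
        pv := by
          intro _
          rw [hal', add_zero]
          show T4 P o + nd { v with p := v.p - k } ((v.c : ℤ) + P.K + 20) ≤
            Vee P o 0 { v with p := v.p - k } + 8 * ((I - k : ℕ) : ℤ)
          rw [hnd, hVs, Nat.cast_sub (by omega)]
          linarith
        pp := by
          intro h5
          have h6 : 1 ≤ 0 ∨ v.E = 0 := h5
          omega }
    obtain ⟨σ'', c, h2, h3, h4⟩ := C_end2 N hL hJ rfl hE hN hw hX hc hW
      (fun _ => Or.inr (by show v.p - k = 0; omega))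
    exact ⟨σ'', k' + c, h1.trans h2, by omega, h4⟩
  · -- the money is gone
    have hkk : k = I := by omega
    have h1 := (g1.pays o 0 r u 0 ν cb).trans (Pays.single (Pay.nrm o r u 0 ν cb ν cb β'))
    refine ⟨⟨o, 0, 0, u, 0, ν, cb, β'⟩, k' + 0, h1, by omega,
      Or.inl (Or.inl ⟨{ v with p := v.p - k }, ?_⟩)⟩
    exact
      { jc :=
          { sn := sn'
            a := rfl
            hI := Nat.zero_le _
            y := hy
            yi := by
              have h5 : v.c - (P.f + v.m) = 0 := by omega
              show (v.c + 1) * (v.c - (P.f + v.m)) + v.X ≤ 12 * (v.c + 1) + 0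
              rw [h5, hX]
              omega
            ps := by
              rw [hal', add_zero, Nat.cast_zero, mul_zero, add_zero]
              show T4 P o ≤ Psi P o 0 { v with p := v.p - k }
              rw [hPs]
              rw [hkk, sub_self, mul_zero, add_zero] at hcap
              exact hcap
            pv := by
              intro _
              rw [hal', add_zero, Nat.cast_zero, mul_zero, add_zero]
              show T4 P o + nd { v with p := v.p - k } ((v.c : ℤ) + P.K + 20) ≤
                Vee P o 0 { v with p := v.p - k }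
              rw [hnd, hVs, hkk]
              linarith
            pp := by
              intro h5
              have h6 : 1 ≤ 0 ∨ v.E = 0 := h5
              omega }
        r := rfl
        M := by show 0 + 1 ≤ v.E; omega }

end Pool.Agent.OCN.YC
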