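import Pool.Agent.Lib_helper68.OCN.YcJ_Ref
import Pool.Agent.Lib_helper16.OCN.YcJT
import Pool.Agent.Lib_helper47.OCN.YcJ_Z2

/-!
# MP_aeb124_co: number game, block (L): the long window
-/

set_option autoImplicit false

namespace Pool.Agent.OCN.YC

variable {P : Par}

theorem L_Psi (P : Par) (o a b : ℕ) (v : Vd) :
    Psi P o a v = Psi P o b v + 8 * ((b : ℤ) - a) := by
  unfold Psi pQ
  ring

theorem L_Vee (P : Par) (o a b : ℕ) (v : Vd) :
    Vee P o a v = Vee P o b v + 8 * ((b : ℤ) - a) := by
  unfold Vee pQ
  ring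

theorem L_nd {v : Vd} {a b : ℤ} (h : a ≤ b) : nd v a ≤ nd v b := by
  unfold nd
  have : max 0 (a - ((v.n : ℤ) * v.d + v.p)) ≤ max 0 (b - ((v.n : ℤ) * v.d + v.p)) :=
    max_le_max le_rfl (by linarith)
  linarith

theorem L_nd0 (v : Vd) (a : ℤ) : 0 ≤ nd v a := by
  unfold nd
  have := le_max_left 0 (a - ((v.n : ℤ) * v.d + v.p))
  linarith

theorem L_al0 (f : ℕ) (v : Vd) : 0 ≤ al f v := by
  unfold al
  split_ifs
  · exact le_rfl
  · have h1 : (0 : ℤ) ≤ min (max 0 ((v.c : ℤ) - v.m)) (f : ℤ) :=
      le_min (le_max_left _ _) (Int.natCast_nonneg _)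
    linarith

/-- long window -/
theorem block_L' (hZ : HZ P) (N : ℕ) (hC : HC P N) : HL P N := by
  intro σ I v ρ h hN
  by_cases hE : v.E = 0
  · exact hZ σ I (toZ_L h hE)
  obtain ⟨o, a, r, u, μ, ν, cb, β⟩ := σ
  obtain ⟨sn, hr, hν, hμ, hI, hcb1, hcb, hcba, hw, hX, hy, hps, hpv, hpp, hwin⟩ := h
  simp only at sn hr hν hμ hI hcb1 hcb hcba hps hpv hpp hwin
  subst hr hν hμ
  have hK := P.hK
  have hkap : 1 ≤ kap P.Q P.R0 := one_le_kap
  have hmE : v.m = v.E := by
    have := sn.hm
    omega
  have hρ : 0 ≤ ρ := by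
    rcases hwin with ⟨h1, _⟩ | ⟨_, _, h1⟩
    · linarith [Int.natCast_nonneg v.c]
    · linarith [le_max_left 0 ((v.c : ℤ) - v.m)]
  by_cases hc : a ≤ I
  · -- the window is closed
    have h1 := pays_close o a 1 u 0 1 cb 1 cb β
    rw [one_mul] at h1
    obtain ⟨σ'', c, h2, h3, h4⟩ := hC ⟨o, 0, 0, u, 0, 1, cb, β⟩ (I - a) v
      { sn := sn
        a := rfl
        hI := by show I - a ≤ o + 1; omega
        y := by omega
        yi := by
          have h5 : v.c - (P.f + v.m) ≤ 2 := by omega
          have h6 : (v.c + 1) * (v.c - (P.f + v.m)) ≤ (v.c + 1) * 2 := Nat.mul_le_mul_left _ h5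
          omega
        ps := by
          show T4 P o ≤ Psi P o 0 v + 8 * ((I - a : ℕ) : ℤ) + al P.f v
          have h5 := L_Psi P o 0 a v
          have h6 := L_al0 P.f v
          push_cast [Nat.cast_sub hc] at *
          linarith
        pv := by
          intro hmd
          show T4 P o + nd v (v.c + P.K + 20) ≤ Vee P o 0 v + 8 * ((I - a : ℕ) : ℤ) + al P.f v
          have h5 := L_Vee P o 0 a v
          have h6 := L_al0 P.f v
          have h7 := hpv hmd
          have h8 : nd v ((v.c : ℤ) + P.K + 20) ≤ nd v ((v.c : ℤ) + P.K + 20 + ρ) :=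
            L_nd (by linarith)
          push_cast [Nat.cast_sub hc] at *
          linarith
        pp := by
          intro h5
          have h6 : 1 ≤ 0 ∨ v.E = 0 := h5
          omega } (by omega)
    exact ⟨σ'', a + c, h1.trans h2, by omega, h4⟩
  · rw [not_le] at hc
    have hcba' : cb ≤ a := by omega
    by_cases hcc : cb + I ≤ a
    · -- everything is paid to the window
      obtain ⟨a', ha'⟩ : ∃ a', a = a' + I := ⟨a - I, by omega⟩
      subst ha'
      have h1 := pays_one o a' 1 u 0 1 cb I β
      rw [one_mul] at h1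
      have hPs := L_Psi P o a' (a' + I) v
      have hVs := L_Vee P o a' (a' + I) v
      push_cast at hPs hVs
      have hc0 : (0 : ℤ) ≤ v.c := Int.natCast_nonneg _
      have hK0 : (0 : ℤ) ≤ P.K := Int.natCast_nonneg _
      obtain ⟨b1, b2, b3⟩ := bar (ra := a') sn (by omega) (by linarith)
      have hlb : lb ⟨o, a', 1, u, 0, 1, cb, β⟩ v ≤ ρ := by
        unfold lb
        split_ifs with h5
        · exact hρ
        · rcases hwin with ⟨h6, _⟩ | ⟨h6, h7, _⟩
          · exact h6
          · exfalso
            have h5' : ¬ (a' + v.E + 1 ≤ o) := h5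
            omega
      refine ⟨⟨o, a', 1, u, 0, 1, cb, β⟩, I, h1, le_rfl, Or.inl (Or.inr (Or.inr (Or.inl ⟨v, ?_⟩)))⟩
      exact
        { sn := sn
          M := by omega
          r := rfl
          ν := rfl
          μ := rfl
          cb1 := hcb1
          cb := hcb
          cba := by show cb ≤ a'; omega
          a := by
            show a' + v.c + P.K + 20 ≤ o
            rcases hwin with ⟨_, h6⟩ | ⟨h6, h7, _⟩
            · omega
            · omega
          w := hw
          X := hX
          y := hy
          ps := by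
            show T4 P o + 8 * lb _ v ≤ Psi P o a' v
            linarith
          pv := by
            intro hmd
            show T4 P o + nd v (v.c + P.K + 20 + lb _ v) ≤ Vee P o a' v
            have h5 := hpv hmd
            have h6 : nd v ((v.c : ℤ) + P.K + 20 + lb ⟨o, a', 1, u, 0, 1, cb, β⟩ v) ≤
              nd v ((v.c : ℤ) + P.K + 20 + ρ) := L_nd (by linarith)
            linarith }
    · -- the floor `cb` is reached, the rest of the money is refused
      rw [not_le] at hcc
      obtain ⟨t, ht⟩ : ∃ t, a = cb + t := ⟨a - cb, by omega⟩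
      subst ht
      obtain ⟨I', hI'⟩ : ∃ I', I = t + I' := ⟨I - t, by omega⟩
      subst hI'
      have h1 := pays_one o cb 1 u 0 1 cb t β
      rw [one_mul] at h1
      have hI'ρ : (I' : ℤ) ≤ ρ := by
        rcases hwin with ⟨h6, _⟩ | ⟨h6, h7, h8⟩
        · have : I' < cb := by omega
          have : (I' : ℤ) < cb := by exact_mod_cast this
          have : (cb : ℤ) ≤ v.c := by exact_mod_cast hcb
          linarith
        · have h9 : I' + v.m ≤ v.c + 1 := by omega
          have h10 : (I' : ℤ) + v.m ≤ v.c + 1 := by exact_mod_cast h9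
          have h11 := le_max_right 0 ((v.c : ℤ) - v.m)
          linarith
      have hPs := L_Psi P o cb (cb + t) v
      have hVs := L_Vee P o cb (cb + t) v
      push_cast at hPs hVs hps hpv
      have hc0 : (0 : ℤ) ≤ v.c := Int.natCast_nonneg _
      have hK0 : (0 : ℤ) ≤ P.K := Int.natCast_nonneg _
      obtain ⟨b1, b2, b3⟩ := bar (ra := cb) sn (by omega) (by linarith)
      obtain ⟨v', β', k', g1, g2, g3, gE, gm, gw, gc, gz, gn, gX, gmd, gPs, _, gV⟩ :=
        ref sn hX I'
      have hlb : lb ⟨o, cb, 1, u, 0, 1, cb, β'⟩ v' = 0 := by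
        unfold lb
        rw [if_pos]
        show cb + v'.E + 1 ≤ o
        omega
      refine ⟨⟨o, cb, 1, u, 0, 1, cb, β'⟩, t + k', h1.trans (g1.pays o cb 1 u 0 1 cb), by omega,
        Or.inl (Or.inr (Or.inr (Or.inl ⟨v', ?_⟩)))⟩
      exact
        { sn := g3
          M := by omega
          r := rfl
          ν := rfl
          μ := rfl
          cb1 := hcb1
          cb := by show cb ≤ v'.c; omega
          cba := le_rfl
          a := by show cb + v'.c + P.K + 20 ≤ o; omega
          w := by omega
          X := gX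
          y := by omega
          ps := by
            rw [hlb]
            show T4 P o + 8 * 0 ≤ Psi P o cb v'
            rw [gPs]
            linarith
          pv := by
            intro hmd
            rw [hlb, add_zero]
            show T4 P o + nd v' (v'.c + P.K + 20) ≤ Vee P o cb v'
            refine gV cb (T4 P o) (v'.c + P.K + 20) ρ hI'ρ (by positivity) ?_ hmd
            intro hmd'
            rw [gc]
            have := hpv hmd'
            linarith }

end Pool.Agent.OCN.YC
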