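import Pool.Agent.Lib_helper28.OCN.YcZ4
import Pool.Agent.Lib_helper93.OCN.YcRW

/-!
# MP_aeb124_co: the number game (block N), definitions

A position of the class `M` comes with virtual data `v : Vd`: `E` levels above the starts of the right
part (`W ≤ u + E`), `m` tops of level at most `c` (`z` of them at most `c - 1`), `w` window starts which
are not processed yet, at most `n` survivors. Mode A (`md = true`): the survivors are on the level `d`,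
`p` of them higher, the excess over `d + 1` is at most `X`. Mode H (`md = false`): the excess of the
survivors over `f - m` is at most `X`. All the potentials are multiplied by 4.
-/

set_option autoImplicit false

namespace Pool.Agent.OCN.YC

/-- the parameters -/
structure Par where
  /-- the number of levels -/
  W : ℕ
  /-- the number of left starts -/
  nl : ℕ
  /-- the target -/
  f : ℕ
  /-- a bound for the number of undecided elements -/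
  Q : ℕ
  /-- from here on `r` does not matter -/
  R0 : ℕ
  /-- a bound for the number of starts of a window -/
  K : ℕ
  hR : 40 ≤ R0
  hK : kap Q R0 + 11 ≤ K
  hKQ : K ≤ Q

/-- the virtual data -/
structure Vd where
  /-- the virtual number of levels which are missing -/
  E : ℕ
  /-- the number of tops -/
  m : ℕ
  /-- the number of window starts which are not processed -/
  w : ℕ
  /-- the level of the tops -/
  c : ℕ
  /-- this many tops have at most the level `c - 1` -/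
  z : ℕ
  /-- the number of survivors (virtual) -/
  n : ℕ
  /-- the level of the survivors (mode A) -/
  d : ℕ
  /-- the number of survivors above `d` (mode A) -/
  p : ℕ
  /-- the excess -/
  X : ℕ
  /-- mode A or H -/
  md : Bool

/-- the base elements: tops `τ` and survivors `γ` -/
def Rp (f : ℕ) (v : Vd) (β : Multiset ℕ) : Prop :=
  ∃ τ γ : Multiset ℕ, β = τ + γ ∧ (∀ j ∈ β, j ≤ v.c) ∧ Multiset.card τ ≤ v.m ∧
    Multiset.card (τ.filter fun j => v.c ≤ j) + v.z ≤ v.m ∧ Multiset.card γ ≤ v.n ∧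
    (v.md = true → Multiset.card (γ.filter fun j => v.d + 1 ≤ j) ≤ v.p ∧ ex (v.d + 1) γ ≤ v.X) ∧
    (v.md = false → exs v.m f γ ≤ v.X)

/-- the structure. `o` undecided elements, `u` starts, `μ` main starts, base elements `β`;
`μ = E` is allowed here -/
structure Sn (P : Par) (o u μ : ℕ) (β : Multiset ℕ) (v : Vd) : Prop where
  hf : 1 ≤ P.f
  hnl : P.f ≤ P.nl + 1
  hm : v.m + μ = v.E + v.w
  hμ : μ ≤ v.E
  hw : v.w ≤ P.K
  hz : v.z ≤ v.m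
  hz0 : v.z = 0 ∨ P.f + v.m < v.c
  hA : v.md = true → v.d ≤ v.c ∧ v.d ≤ P.f ∧ P.f ≤ v.d + v.m ∧ v.p ≤ v.n ∧
    (v.p = 0 ∨ v.d + 1 ≤ v.c)
  hH : v.md = false → v.m ≤ P.f
  hn : 3 * P.f + v.c + v.m + 4 * P.K + 100 ≤ 2 * v.n
  hN : v.n + v.w + v.E + o ≤ 4 * P.Q
  ho : o ≤ P.Q
  hE : P.W ≤ u + v.E
  hW : P.W ≤ u + μ + Multiset.card β
  hR : Rp P.f v β

/-! ### the potentials -/

/-- the part of the undecided elements and of the window -/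
def pQ (o E ra : ℤ) : ℤ := 4 * o ^ 2 - 8 * (o * E + ra)

/-- the part of the target and of the open debts -/
def pS (f m c z X : ℤ) : ℤ := 16 * f ^ 2 + 2 * (max 0 (c + m - f)) ^ 2 - 8 * z + 8 * X

/-- the reserve of the tops -/
def pH (f m c : ℤ) : ℤ :=
  16 * (c * m) + 4 * m ^ 2 + 2 * (max 0 (m - c)) ^ 2 - 4 * (max 0 (c + m - f)) ^ 2 +
    4 * (max 0 (c - f - m)) ^ 2 + 64 * m

/-- the debts of the survivors -/
def pA (f m n d p : ℤ) : ℤ := 8 * (n * (d + m - f) + p)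

/-- the part of `P` -/
def pP (f m c z X o : ℤ) : ℤ :=
  8 * (min c f * o) + 8 * (m * max 0 (c - f)) - 8 * z + 8 * X - 4 * m ^ 2

/-- the potential `Ψ` -/
def Psi (P : Par) (o ra : ℕ) (v : Vd) : ℤ :=
  pQ o v.E ra - pS P.f v.m v.c v.z v.X - pH P.f v.m v.c

/-- the potential `V` -/
def Vee (P : Par) (o ra : ℕ) (v : Vd) : ℤ :=
  pQ o v.E ra - pS P.f v.m v.c v.z v.X - pA P.f v.m v.n v.d v.p

/-- the potential `P` -/
def Pee (P : Par) (o ra : ℕ) (v : Vd) : ℤ := pQ o v.E ra - pP P.f v.m v.c v.z v.X o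

/-- the threshold of `Ψ` and `V` -/
def T4 (P : Par) (o : ℕ) : ℤ := 256 * ((P.K : ℤ) * o) + 800 * ((P.K : ℤ) * P.Q)

/-- the threshold of `P` -/
def TP (P : Par) (o : ℕ) (v : Vd) : ℤ :=
  80 * ((P.K : ℤ) * o) + 240 * ((P.K : ℤ) * P.Q) + 8 * ((v.w : ℤ) * (v.m + min (v.c : ℤ) P.f))

/-- the allowance of the unprocessed window starts -/
def al (f : ℕ) (v : Vd) : ℤ :=
  if v.w = 0 then 0 else 8 * min (max 0 ((v.c : ℤ) - v.m)) (f : ℤ) + 64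

/-- the payability: `8 (need - (n d + p))⁺` -/
def nd (v : Vd) (need : ℤ) : ℤ := 8 * max 0 (need - ((v.n : ℤ) * v.d + v.p))

/-! ### states with money `I`

In all of them `μ = v.E` is allowed, then the position belongs to the class Z. -/

/-- closed window -/
structure JC (P : Par) (σ : St) (I : ℕ) (v : Vd) : Prop where
  sn : Sn P σ.o σ.u σ.μ σ.β v
  a : σ.a = 0
  hI : I ≤ σ.o + 1
  y : v.c ≤ P.f + v.m + 13
  yi : (v.c + 1) * (v.c - (P.f + v.m)) + v.X ≤ 12 * (v.c + 1) + I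
  ps : T4 P σ.o ≤ Psi P σ.o 0 v + 8 * I + al P.f v
  pv : v.md = true → T4 P σ.o + nd v (v.c + P.K + 20) ≤ Vee P σ.o 0 v + 8 * I + al P.f v
  pp : 1 ≤ σ.μ ∨ v.E = 0 → TP P σ.o v ≤ Pee P σ.o 0 v + 8 * I

/-- the structure of the waiting class -/
structure Ws (P : Par) (σ : St) (v : Vd) : Prop where
  sn : Sn P σ.o σ.u σ.μ σ.β v
  a : σ.a = 0
  μ : σ.μ = 0
  E : 1 ≤ v.E
  w : v.w = 0
  z : v.z = 0
  X : v.X = 0
  c : v.c ≤ P.f + v.m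
  A : v.md = true → v.d < P.f ∨ v.p = 0

/-- closed window, just after an attack of a waiting position (no start has attacked) -/
structure JW (P : Par) (σ : St) (I : ℕ) (v : Vd) : Prop where
  ws : Ws P σ v
  hI : I ≤ σ.o + 1
  I1 : v.c + P.K + 21 ≤ I
  ps : T4 P σ.o ≤ Psi P σ.o 0 v + 8 * (I : ℤ) + 8 * ((v.c : ℤ) + 4)
  pv : v.md = true → T4 P σ.o ≤ Vee P σ.o 0 v + 8 * I
  ex : P.W = σ.u + v.E → σ.o ≤ I ∨ I + v.E = σ.o

/-- `k` bounds the number of the attacks from the window -/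
def Kb (P : Par) (r a k : ℕ) : Prop :=
  1 ≤ r ∧ r + k ≤ kap P.Q P.R0 ∧ ∀ a' ≤ a, r * a' ≤ P.Q → kc P.Q P.R0 r a' ≤ k

/-- short window -/
structure JS (P : Par) (σ : St) (I : ℕ) (v : Vd) (k : ℕ) : Prop where
  sn : Sn P σ.o σ.u σ.μ σ.β v
  cb : σ.cb = 0
  ν : σ.ν ≤ 1
  hI : I ≤ σ.o + 1
  kb : Kb P σ.r σ.a k
  w : v.w < σ.r
  win : (σ.ν = 1 ∧ σ.r * σ.a + σ.r ≤ σ.o + I + 1 ∧ v.X = 0 ∧ v.c ≤ P.f + v.m + 2) ∨
    (σ.r * σ.a + σ.r + v.E + σ.r + k + 10 ≤ σ.o + I + 1 ∧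
      σ.r * σ.a + σ.r + v.c + k + 10 ≤ σ.o + I + 1 ∧
      v.X ≤ v.c + 1 ∧ v.c ≤ P.f + v.m + 3)
  ps : T4 P σ.o + 8 * ((σ.r : ℤ) - 1) ≤ Psi P σ.o (σ.r * σ.a) v + 8 * I + al P.f v
  pv : v.md = true → T4 P σ.o + nd v (v.c + P.K + 20) + 8 * ((σ.r : ℤ) - 1) ≤
    Vee P σ.o (σ.r * σ.a) v + 8 * I + al P.f v
  pp : 1 ≤ σ.μ ∨ v.E = 0 → TP P σ.o v + 8 * ((σ.r : ℤ) - 1) ≤ Pee P σ.o (σ.r * σ.a) v + 8 * I

/-- long window -/
structure JL (P : Par) (σ : St) (I : ℕ) (v : Vd) (ρ : ℤ) : Prop where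
  sn : Sn P σ.o σ.u σ.μ σ.β v
  r : σ.r = 1
  ν : σ.ν = 1
  μ : σ.μ = 0
  hI : I ≤ σ.o + 1
  cb1 : 1 ≤ σ.cb
  cb : σ.cb ≤ v.c
  cba : σ.cb ≤ σ.a ∨ σ.a ≤ I
  w : v.w = 0
  X : v.X = 0
  y : v.c ≤ P.f + v.m + 2
  ps : T4 P σ.o + 8 * ρ ≤ Psi P σ.o σ.a v + 8 * I
  pv : v.md = true → T4 P σ.o + nd v (v.c + P.K + 20 + ρ) ≤ Vee P σ.o σ.a v + 8 * I
  pp : v.E = 0 → TP P σ.o v ≤ Pee P σ.o σ.a v + 8 * I
  win : ((v.c : ℤ) + 2 ≤ ρ ∧ σ.a + v.c + P.K + 20 ≤ σ.o + I) ∨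
    (σ.a = σ.o ∧ (σ.o ≤ I ∨ (σ.o ≤ I + v.E + 2 ∧ I + v.E ≤ σ.o + 1)) ∧
      max 0 ((v.c : ℤ) - v.m) + 1 ≤ ρ)

/-! ### the class Z: `W ≤ u + μ` -/

/-- the positions of the class Z -/
def ZR (P : Par) (σ : St) : Prop := ∃ φ, φ ≤ P.nl ∧ ZS P.W P.Q P.R0 φ σ

/-- class Z with money -/
def ZJ (P : Par) (σ : St) (I : ℕ) : Prop :=
  ∃ φ F : ℕ, φ ≤ P.nl ∧ P.W ≤ σ.u + σ.μ ∧ σ.o ≤ P.Q ∧ I ≤ σ.o + 1 ∧ (∀ j ∈ σ.β, j ≤ F) ∧
    F ≤ φ + P.K + 15 ∧ ex φ σ.β ≤ I + 20 * (P.K * P.Q) ∧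
    16 * ((P.K : ℤ) * σ.o) + 40 * ((P.K : ℤ) * P.Q) ≤
      pz φ (P.W - σ.u) σ.o (σ.r * σ.a) (ex φ σ.β) 0 + 2 * I ∧
    (σ.a = 0 ∨
      (σ.cb = 0 ∧ σ.ν ≤ 1 ∧ ∃ k, Kb P σ.r σ.a k ∧
        ((σ.ν = 1 ∧ σ.r * σ.a + σ.r ≤ σ.o + I + 1) ∨
          σ.r * σ.a + σ.r + F + k + 10 ≤ σ.o + I + 1)) ∨
      (σ.r = 1 ∧ σ.ν = 1 ∧ P.W ≤ σ.u ∧ 1 ≤ σ.cb ∧ σ.cb ≤ F ∧ (σ.cb ≤ σ.a ∨ σ.a ≤ I) ∧
        σ.a + F + P.K + 14 ≤ σ.o + I))

/-! ### the positions of the class M -/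

/-- closed window -/
structure CL (P : Par) (σ : St) (v : Vd) : Prop where
  jc : JC P σ 0 v
  r : σ.r = 0
  M : σ.μ + 1 ≤ v.E

/-- closed window, waiting for a conversion -/
structure WT (P : Par) (σ : St) (v : Vd) : Prop where
  ws : Ws P σ v
  r : σ.r = 0
  ps : T4 P σ.o ≤ Psi P σ.o 0 v + 8 * ((v.c : ℤ) + P.K + 20)
  pv : v.md = true → T4 P σ.o ≤ Vee P σ.o 0 v

/-- if a long window cannot be closed by a left attack -/
def lb (σ : St) (v : Vd) : ℤ := if σ.a + v.E + 1 ≤ σ.o then 0 else (v.c : ℤ) + 2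

/-- long window -/
structure LO (P : Par) (σ : St) (v : Vd) : Prop where
  sn : Sn P σ.o σ.u σ.μ σ.β v
  M : 1 ≤ v.E
  r : σ.r = 1
  ν : σ.ν = 1
  μ : σ.μ = 0
  cb1 : 1 ≤ σ.cb
  cb : σ.cb ≤ v.c
  cba : σ.cb ≤ σ.a
  a : σ.a + v.c + P.K + 20 ≤ σ.o
  w : v.w = 0
  X : v.X = 0
  y : v.c ≤ P.f + v.m + 2
  ps : T4 P σ.o + 8 * lb σ v ≤ Psi P σ.o σ.a v
  pv : v.md = true → T4 P σ.o + nd v (v.c + P.K + 20 + lb σ v) ≤ Vee P σ.o σ.a v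

/-- short window -/
structure SH (P : Par) (σ : St) (v : Vd) : Prop where
  sn : Sn P σ.o σ.u σ.μ σ.β v
  M : σ.μ + 1 ≤ v.E
  a : 1 ≤ σ.a
  r : 1 ≤ σ.r
  cb : σ.cb = 0
  ν : σ.ν ≤ 1
  kr : σ.r + kc P.Q P.R0 σ.r σ.a ≤ kap P.Q P.R0
  w : v.w < σ.r
  win : (σ.ν = 1 ∧ σ.r * σ.a ≤ σ.o ∧ v.X = 0 ∧ v.c ≤ P.f + v.m + 2) ∨
    (σ.r * σ.a + v.E + σ.r + kc P.Q P.R0 σ.r σ.a + 10 ≤ σ.o ∧
      σ.r * σ.a + v.c + kc P.Q P.R0 σ.r σ.a + 10 ≤ σ.o ∧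
      v.X ≤ v.c + 1 ∧ v.c ≤ P.f + v.m + 3)
  ps : T4 P σ.o ≤ Psi P σ.o (σ.r * σ.a) v + al P.f v
  pv : v.md = true → T4 P σ.o + nd v (v.c + P.K + 20) ≤ Vee P σ.o (σ.r * σ.a) v + al P.f v
  pp : 1 ≤ σ.μ → TP P σ.o v ≤ Pee P σ.o (σ.r * σ.a) v

/-- the game -/
def Gm (P : Par) (σ : St) : Prop :=
  (∃ v, CL P σ v) ∨ (∃ v, WT P σ v) ∨ (∃ v, LO P σ v) ∨ (∃ v, SH P σ v) ∨ ZR P σ

/-- the money `I` is enough -/
def Good (P : Par) (σ : St) (I : ℕ) : Prop :=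
  ∃ σ'' c, Pays σ σ'' c ∧ c ≤ I ∧ (Gm P σ'' ∨ Ex P.W P.nl σ'')

/-! ### the induction -/

/-- closed windows are good up to the level `N` -/
def HC (P : Par) (N : ℕ) : Prop := ∀ σ I v, JC P σ I v → v.E + v.w ≤ N → Good P σ I

/-- waiting positions with money -/
def HW (P : Par) (N : ℕ) : Prop := ∀ σ I v, JW P σ I v → v.E ≤ N → Good P σ I

/-- short windows -/
def HS (P : Par) (N : ℕ) : Prop := ∀ σ I v k, JS P σ I v k → v.E + v.w ≤ N → Good P σ I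

/-- long windows -/
def HL (P : Par) (N : ℕ) : Prop := ∀ σ I v ρ, JL P σ I v ρ → v.E ≤ N → Good P σ I

/-- class Z -/
def HZ (P : Par) : Prop := ∀ σ I, ZJ P σ I → Good P σ I

end Pool.Agent.OCN.YC
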